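import Pool.Agent.W744.GL.Stm
import Pool.Agent.Helper503.Gp.BF2

/-! Project GL (MP_264cca_an): test points, S_TP. -/

set_option autoImplicit false

open Metric Set Filter Topology Complex
open scoped ComplexConjugate

namespace Pool.Agent.W612.GL.TP
open Pool.Agent.W744.GL
open Pool.Agent.Helper503.Gp (HI IsChar Gl bfac cay PH BlaOn BF mu PH_pos PH_le_one PH_comm harnack
  summable_PH BF_tend BF_exp_lower)

/-- the test parameter number `j` -/
noncomputable def xi (K j : ℕ) : ℂ := (((j : ℝ) / (K : ℝ) : ℝ) : ℂ) + I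

theorem xi_im (K j : ℕ) : (xi K j).im = 1 := by simp [xi]

theorem mv_re (z : ℂ) (K j : ℕ) : (mv z (xi K j)).re = z.re + z.im * ((j : ℝ) / K) := by
  simp only [mv, xi, Complex.add_re, Complex.mul_re, Complex.ofReal_re, Complex.ofReal_im,
    Complex.I_re]
  ring

theorem mv_im (z : ℂ) (K j : ℕ) : (mv z (xi K j)).im = z.im := by
  simp only [mv, xi, Complex.add_im, Complex.mul_im, Complex.ofReal_re, Complex.ofReal_im,
    Complex.I_im, Complex.add_re, Complex.I_re]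
  ring

theorem near1 {w a : ℂ} (hw : 0 < w.im) (ha : 0 < a.im) {δ : ℝ} (hδ : δ ≤ 1 / 9)
    (h : 1 - PH w a < δ) : (w.re - a.re) ^ 2 ≤ 11 * δ * a.im ^ 2 := by
  have hle := PH_le_one hw ha
  have hδ0 : 0 < δ := by linarith
  obtain ⟨u, hu⟩ : ∃ u, u = w.re - a.re := ⟨_, rfl⟩
  obtain ⟨v, hv⟩ : ∃ v, v = w.im := ⟨_, rfl⟩
  obtain ⟨y, hy⟩ : ∃ y, y = a.im := ⟨_, rfl⟩
  rw [← hv] at hw
  rw [← hy] at ha
  have hD : 0 < u ^ 2 + (v + y) ^ 2 := by
    have : 0 < v + y := by linarith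
    positivity
  unfold PH at h
  rw [← hu, ← hv, ← hy] at h
  have h1 : u ^ 2 + (v + y) ^ 2 - 4 * v * y < δ * (u ^ 2 + (v + y) ^ 2) := by
    have e : 1 - 4 * v * y / (u ^ 2 + (v + y) ^ 2) =
        (u ^ 2 + (v + y) ^ 2 - 4 * v * y) / (u ^ 2 + (v + y) ^ 2) := by
      field_simp
    rw [e, div_lt_iff₀ hD] at h
    exact h
  have h2 : (1 - δ) * u ^ 2 + (v - y) ^ 2 < δ * (v + y) ^ 2 := by nlinarith
  have hu0 : 0 ≤ u ^ 2 := sq_nonneg u
  have h3 : v < 2 * y := by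
    by_contra hcon
    push Not at hcon
    have h4 : (v + y) ^ 2 ≤ 9 * (v - y) ^ 2 := by nlinarith
    have h5 : δ * (v + y) ^ 2 ≤ 1 / 9 * (v + y) ^ 2 :=
      mul_le_mul_of_nonneg_right hδ (sq_nonneg _)
    have h6 : 0 ≤ (1 - δ) * u ^ 2 := mul_nonneg (by linarith) hu0
    linarith
  have h7 : (v + y) ^ 2 ≤ 9 * y ^ 2 := by nlinarith
  have h8 : δ * (v + y) ^ 2 ≤ δ * (9 * y ^ 2) := mul_le_mul_of_nonneg_left h7 hδ0.le
  have h9 : 8 / 9 * u ^ 2 ≤ (1 - δ) * u ^ 2 := mul_le_mul_of_nonneg_right (by linarith) hu0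
  rw [← hu, ← hy]
  have h10 : 0 ≤ δ * y ^ 2 := by positivity
  nlinarith [sq_nonneg (v - y)]

/-- the close distance -/
noncomputable def dl (K : ℕ) : ℝ := 1 / (45 * (K : ℝ) ^ 2)

theorem dl_pos {K : ℕ} (hK : 1 ≤ K) : 0 < dl K := by
  have : (0 : ℝ) < K := by exact_mod_cast hK
  unfold dl
  positivity

theorem dl_le {K : ℕ} (hK : 1 ≤ K) : dl K ≤ 1 / 9 := by
  have : (1 : ℝ) ≤ K := by exact_mod_cast hK
  unfold dl
  apply one_div_le_one_div_of_le (by norm_num)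
  nlinarith

theorem sep {w z : ℂ} (hw : 0 < w.im) (hz : 0 < z.im) {K : ℕ} (hK : 1 ≤ K) {j k : ℕ}
    (hj : 1 - PH w (mv z (xi K j)) < dl K) (hk : 1 - PH w (mv z (xi K k)) < dl K) : j = k := by
  by_contra hne
  have hK0 : (0 : ℝ) < K := by exact_mod_cast hK
  have h1 := near1 hw (by rw [mv_im]; exact hz) (dl_le hK) hj
  have h2 := near1 hw (by rw [mv_im]; exact hz) (dl_le hK) hk
  rw [mv_re, mv_im] at h1 h2
  have hjk : (1 : ℝ) ≤ ((j : ℝ) - k) ^ 2 := by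
    have h3 : (1 : ℤ) ≤ |(j : ℤ) - k| := by
      apply Int.one_le_abs
      omega
    have h4 : (1 : ℤ) ≤ ((j : ℤ) - k) ^ 2 := by
      rw [← sq_abs]
      nlinarith
    exact_mod_cast h4
  have h5 : (z.im * ((j : ℝ) / K) - z.im * ((k : ℝ) / K)) ^ 2 ≤
      2 * ((w.re - (z.re + z.im * ((j : ℝ) / K))) ^ 2 +
        (w.re - (z.re + z.im * ((k : ℝ) / K))) ^ 2) := by
    nlinarith [sq_nonneg ((w.re - (z.re + z.im * ((j : ℝ) / K))) +
      (w.re - (z.re + z.im * ((k : ℝ) / K))))]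
  have h6 : (z.im * ((j : ℝ) / K) - z.im * ((k : ℝ) / K)) ^ 2 =
      ((j : ℝ) - k) ^ 2 * (z.im ^ 2 / (K : ℝ) ^ 2) := by
    field_simp
  have h7 : dl K * z.im ^ 2 = 1 / 45 * (z.im ^ 2 / (K : ℝ) ^ 2) := by
    unfold dl
    field_simp
  have h8 : 0 < z.im ^ 2 / (K : ℝ) ^ 2 := by positivity
  have h9 : z.im ^ 2 / (K : ℝ) ^ 2 ≤ ((j : ℝ) - k) ^ 2 * (z.im ^ 2 / (K : ℝ) ^ 2) := by
    nlinarith
  rw [h6] at h5
  nlinarith

theorem PH_test {z : ℂ} (hz : 0 < z.im) {K j : ℕ} (hK : 1 ≤ K) (hj : j ≤ K) :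
    1 / 2 ≤ PH (mv z (xi K j)) z := by
  have hK0 : (0 : ℝ) < K := by exact_mod_cast hK
  have hq0 : (0 : ℝ) ≤ (j : ℝ) / K := by positivity
  have hq1 : (j : ℝ) / K ≤ 1 := by
    rw [div_le_one hK0]
    exact_mod_cast hj
  unfold PH
  rw [mv_re, mv_im]
  obtain ⟨q, hq⟩ : ∃ q : ℝ, q = (j : ℝ) / K := ⟨_, rfl⟩
  rw [← hq] at hq0 hq1 ⊢
  have hD : 0 < (z.re + z.im * q - z.re) ^ 2 + (z.im + z.im) ^ 2 := by positivity
  rw [le_div_iff₀ hD]
  have h1 : (z.im * q) ^ 2 ≤ z.im ^ 2 := by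
    rw [mul_pow]
    have : q ^ 2 ≤ 1 := by nlinarith
    nlinarith [sq_nonneg z.im]
  nlinarith

theorem far {x z : ℂ} (hx : 0 < x.im) (hz : 0 < z.im) {K j : ℕ} (hK : 1 ≤ K) (hj : j ≤ K) :
    PH x (mv z (xi K j)) ≤ 648 * PH x z := by
  have h := harnack hx (a := mv z (xi K j)) (b := z) (by rw [mv_im]; exact hz) hz
    (s := 1 / 2) (by norm_num) (PH_test hz hK hj)
  norm_num at h
  exact h

theorem sum_le {ι : Type} {w : ι → ℂ} {C : Set ι} (h : BlaOn w C) {z : ℂ} (hz : 0 < z.im) {M : ℝ}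
    (hM : mu w C z ≤ M) (s : Finset C) : ∑ i ∈ s, PH (w i) z ≤ M :=
  ((summable_PH h hz).sum_le_tsum s fun i _ => (PH_pos (h.1 i i.2) hz).le).trans hM

theorem card_le {ι : Type} {w : ι → ℂ} {C : Set ι} (h : BlaOn w C) {z : ℂ} (hz : 0 < z.im) {M : ℝ}
    (hM : mu w C z ≤ M) {N : ℕ} (hN : 1296 * M ≤ N) (s : Finset C)
    (hs : ∀ i ∈ s, 1 / 1296 ≤ PH (w i) z) : s.card ≤ N := by
  have h1 := sum_le h hz hM s
  have h2 : (s.card : ℝ) * (1 / 1296) ≤ ∑ i ∈ s, PH (w i) z := by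
    rw [← nsmul_eq_mul]
    exact Finset.card_nsmul_le_sum s _ _ hs
  have h3 : (s.card : ℝ) ≤ N := by linarith
  exact_mod_cast h3

theorem good {ι : Type} {w : ι → ℂ} {C : Set ι} (h : BlaOn w C) {z : ℂ} (hz : 0 < z.im) {M : ℝ}
    (hM : mu w C z ≤ M) {N : ℕ} (hN : 1296 * M ≤ N) :
    ∃ j : ℕ, j < N + 1 ∧ ∀ i : C, 1 / 1296 ≤ PH (w i) z →
      dl (N + 1) ≤ 1 - PH (w i) (mv z (xi (N + 1) j)) := by
  classical
  by_contra hcon
  push Not at hcon
  choose f hf1 hf2 using fun j : Fin (N + 1) => hcon j j.2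
  have hinj : Function.Injective f := by
    intro j k hjk
    have hj := hf2 j
    have hk := hf2 k
    rw [← hjk] at hk
    exact Fin.ext (sep (h.1 _ (f j).2) hz (by omega) hj hk)
  have h1 := card_le h hz hM hN (Finset.univ.image f) (by
    intro i hi
    obtain ⟨j, -, rfl⟩ := Finset.mem_image.mp hi
    exact hf1 j)
  rw [Finset.card_image_of_injective _ hinj, Finset.card_univ, Fintype.card_fin] at h1
  omega

theorem prod_ge {ι : Type} {w : ι → ℂ} {C : Set ι} (h : BlaOn w C) {z : ℂ} (hz : 0 < z.im)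
    {M : ℝ} (hM : mu w C z ≤ M) {N : ℕ} (hN : 1296 * M ≤ N) {j : ℕ} (hj : j < N + 1)
    (hg : ∀ i : C, 1 / 1296 ≤ PH (w i) z → dl (N + 1) ≤ 1 - PH (w i) (mv z (xi (N + 1) j)))
    (s : Finset C) : dl (N + 1) ^ N * Real.exp (-(1296 * M)) ≤
      ∏ i ∈ s, (1 - PH (w i) (mv z (xi (N + 1) j))) := by
  classical
  have hzj : 0 < (mv z (xi (N + 1) j)).im := by rw [mv_im]; exact hz
  have hd0 := dl_pos (K := N + 1) (by omega)
  have hd1 : dl (N + 1) ≤ 1 := (dl_le (K := N + 1) (by omega)).trans (by norm_num)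
  rw [← Finset.prod_filter_mul_prod_filter_not s (fun i : C => 1 / 1296 ≤ PH (w i) z)]
  refine mul_le_mul ?_ ?_ (Real.exp_pos _).le ?_
  · calc dl (N + 1) ^ N
        ≤ dl (N + 1) ^ (s.filter (fun i : C => 1 / 1296 ≤ PH (w i) z)).card := by
          refine pow_le_pow_of_le_one hd0.le hd1 ?_
          exact card_le h hz hM hN _ fun i hi => (Finset.mem_filter.mp hi).2
      _ = ∏ _i ∈ s.filter (fun i : C => 1 / 1296 ≤ PH (w i) z), dl (N + 1) := by
          rw [Finset.prod_const]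
      _ ≤ _ := Finset.prod_le_prod (fun i _ => hd0.le)
          fun i hi => hg i (Finset.mem_filter.mp hi).2
  · calc Real.exp (-(1296 * M))
        ≤ Real.exp (∑ i ∈ s.filter (fun i : C => ¬ 1 / 1296 ≤ PH (w i) z),
            (-2 * PH (w i) (mv z (xi (N + 1) j)))) := by
          apply Real.exp_le_exp.mpr
          rw [← Finset.mul_sum]
          have h1 : ∑ i ∈ s.filter (fun i : C => ¬ 1 / 1296 ≤ PH (w i) z),
              PH (w i) (mv z (xi (N + 1) j)) ≤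
              ∑ i ∈ s.filter (fun i : C => ¬ 1 / 1296 ≤ PH (w i) z), 648 * PH (w i) z :=
            Finset.sum_le_sum fun i _ => far (h.1 i i.2) hz (by omega) (by omega)
          rw [← Finset.mul_sum] at h1
          have h2 := sum_le h hz hM (s.filter (fun i : C => ¬ 1 / 1296 ≤ PH (w i) z))
          linarith
      _ = ∏ i ∈ s.filter (fun i : C => ¬ 1 / 1296 ≤ PH (w i) z),
            Real.exp (-2 * PH (w i) (mv z (xi (N + 1) j))) := Real.exp_sum _ _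
      _ ≤ _ := by
          refine Finset.prod_le_prod (fun i _ => (Real.exp_pos _).le) fun i hi => ?_
          have h3 := (Finset.mem_filter.mp hi).2
          push Not at h3
          refine BF_exp_lower (PH_pos (h.1 i i.2) hzj).le ?_
          have h4 := far (h.1 i i.2) hz (K := N + 1) (j := j) (by omega) (by omega)
          linarith
  · exact Finset.prod_nonneg fun i _ => by
      have := PH_le_one (h.1 i i.2) hzj
      linarith

theorem main : S_TP := by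
  classical
  intro M
  obtain ⟨N, hN⟩ := exists_nat_ge (1296 * M)
  have hd0 := dl_pos (K := N + 1) (by omega)
  refine ⟨(Finset.range (N + 1)).image (xi (N + 1)),
    Real.sqrt (dl (N + 1) ^ N * Real.exp (-(1296 * M))),
    Real.sqrt_pos.mpr (by positivity), ?_, ?_⟩
  · intro ξ hξ
    obtain ⟨j, -, rfl⟩ := Finset.mem_image.mp hξ
    rw [xi_im]
    norm_num
  · intro ι w C hC z hz hM
    obtain ⟨j, hj, hg⟩ := good hC hz hM hN
    refine ⟨xi (N + 1) j, Finset.mem_image.mpr ⟨j, Finset.mem_range.mpr hj, rfl⟩, ?_⟩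
    have hzj : 0 < (mv z (xi (N + 1) j)).im := by rw [mv_im]; exact hz
    have h1 := BF_tend hC hzj
    have h2 : dl (N + 1) ^ N * Real.exp (-(1296 * M)) ≤
        ‖BF w C (cay (mv z (xi (N + 1) j)))‖ ^ 2 :=
      ge_of_tendsto' h1 fun s => prod_ge hC hz hM hN hj hg s
    rw [Real.sqrt_le_left (norm_nonneg _)]
    exact h2

end Pool.Agent.W612.GL.TP
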